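import Pool.Agent.J4.H67.PC.Lone

/-!
# The infrared bound of percolation for almost every wave vector, up to powers of `log χ`

Bond percolation on `ℤ^d`, `C` the cluster of the origin. The spectral density
`f_p(k) = E_p[|∑_{x ∈ C} e^{i k x}|² / |C| ; |C| < ∞]` has the Fourier coefficients
`P_p(0 ↔ x, |C| < ∞)`, for every `p`, and `f_p(k) = τ̂_p(k)` if the susceptibility `χ(p)` is finite.

* Maximal inequality, for every `p`:
  `∫ sup_{q ≤ p} f_q(k) dk ≤ 2 (2π)^d E_p[(1 + ⌊log₂ |C|⌋)³]`.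
* `∫ sup_{q : χ(q) ≤ X} τ̂_q(k) dk ≤ 352 (2π)^d (1 + log X)³`.
* For almost every `k` there is `C(k)` such that, for all `p` of finite susceptibility,
  `τ̂_p(k) ≤ C(k) (1 + log χ(p))³ (1 + log (1 + log χ(p)))²`.
* If `E_p[(1 + ⌊log₂ |C|⌋)³] < ∞` (for instance at `p = p_c`, if `P_{p_c}(|C| ≥ n) ≤ c (log n)^{-4}`), then
  `sup_{q ≤ p} f_q(k) < ∞` and `f_q(k) → f_p(k)` as `q ↑ p`, for almost every `k`.
* If all clusters are finite at `p`, then `f_q → f_p` in mean as `q ↑ p`.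

Proof. All parameters are coupled by uniform labels, so that the clusters of the origin form a chain of
sets; for a chain of finite sets `A` contained in `B`, `∫ sup |∑_{x ∈ A} e^{i k x}|² / |A| dk` is at most
`2 (2π)^d (1 + ⌊log₂ |B|⌋)³`, by the chaining argument of Rademacher and Menshov at each dyadic
scale of `|A|`. The identity `f_p = τ̂_p` is a mass transport. The clusters increase and are left
continuous in `p`, this gives the supremum over all `q` and the limits.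
-/

set_option autoImplicit false

namespace Pool.Agent.Results.MP_54f242_pr.MaximalFunction

open MeasureTheory Filter Topology
open Pool.Agent.Results.MP_54f242_pr.InfraredMean (P tau chi cube opn)
open Pool.Agent.J4.H67.PC (cl cf ps dens lg)

/-- the Fourier transform of the two-point function, at parameters of finite susceptibility -/
noncomputable def tauhat (d : ℕ) (p : NNReal) (hp : p ≤ 1) (k : Fin d → ℝ) : ℝ :=
  ∑' x : Fin d → ℤ, tau d p hp x * Real.cos (∑ i : Fin d, k i * (x i : ℝ))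

theorem result (d : ℕ) :
    (∀ (p : NNReal) (hp : p ≤ 1), Measurable (dens d p hp) ∧
      (∀ x : Fin d → ℤ, ∫ k in cube d,
          (dens d p hp k).toReal * Real.cos (∑ i : Fin d, k i * (x i : ℝ)) =
        (2 * Real.pi) ^ d * (P d p hp {ω | (cl ω).Finite ∧ (opn ω).Reachable 0 x}).toReal) ∧
      (Summable (tau d p hp) → ∀ k, dens d p hp k = ENNReal.ofReal (tauhat d p hp k))) ∧
    (∀ (p : NNReal) (hp : p ≤ 1), ∃ M : (Fin d → ℝ) → ENNReal, Measurable M ∧
      (∀ (q : NNReal) (hq : q ≤ 1), q ≤ p → ∀ k, dens d q hq k ≤ M k) ∧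
      ∫⁻ k in cube d, M k ≤
        ENNReal.ofReal (2 * (2 * Real.pi) ^ d) * ∫⁻ ω, lg ω ^ 3 ∂(P d p hp)) ∧
    (∀ X : ℝ, 1 ≤ X → ∃ M : (Fin d → ℝ) → ENNReal, Measurable M ∧
      (∀ (q : NNReal) (hq : q ≤ 1), Summable (tau d q hq) → chi d q hq ≤ X →
        ∀ k, ENNReal.ofReal (tauhat d q hq k) ≤ M k) ∧
      ∫⁻ k in cube d, M k ≤
        ENNReal.ofReal (352 * (2 * Real.pi) ^ d * (1 + Real.log X) ^ 3)) ∧
    (∀ᵐ k : Fin d → ℝ, k ∈ cube d → ∃ C : ℝ, ∀ (q : NNReal) (hq : q ≤ 1),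
      Summable (tau d q hq) → tauhat d q hq k ≤
        C * ((1 + Real.log (chi d q hq)) ^ 3 *
          (1 + Real.log (1 + Real.log (chi d q hq))) ^ 2)) ∧
    (∀ (p : NNReal) (hp : p ≤ 1), ∫⁻ ω, lg ω ^ 3 ∂(P d p hp) ≠ ⊤ →
      ∀ᵐ k : Fin d → ℝ, k ∈ cube d →
        (∃ C : NNReal, ∀ (q : NNReal) (hq : q ≤ 1), q ≤ p → dens d q hq k ≤ C) ∧
        ∀ (q : ℕ → NNReal) (hq : ∀ n, q n ≤ 1), (∀ n, q n < p) → Tendsto q atTop (𝓝 p) →
          Tendsto (fun n => dens d (q n) (hq n) k) atTop (𝓝 (dens d p hp k))) ∧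
    (∀ (p : NNReal) (hp : p ≤ 1), (∀ᵐ ω ∂(P d p hp), (cl ω).Finite) →
      ∀ (q : ℕ → NNReal) (hq : ∀ n, q n ≤ 1), (∀ n, q n < p) → Tendsto q atTop (𝓝 p) →
        Tendsto (fun n => ∫ k in cube d,
          |(dens d (q n) (hq n) k).toReal - (dens d p hp k).toReal|) atTop (𝓝 0)) := by
  refine ⟨fun p hp => ⟨Pool.Agent.J4.H67.PC.dens_meas p hp, fun x => ?_, fun hs k => ?_⟩,
    fun p hp => ⟨Pool.Agent.J4.H67.PC.MM d p, Pool.Agent.J4.H67.PC.MM_meas _,
      fun q hq h k => Pool.Agent.J4.H67.PC.dens_le_MM q hq p (by exact_mod_cast h) k,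
      Pool.Agent.J4.H67.PC.int_MM p hp⟩, fun X hX => ?_, ?_, fun p hp h => ?_,
    fun p hp hf q hq hqp hlim => Pool.Agent.J4.H67.PC.conv_mean p hp hf q hq hqp hlim⟩
  · exact Pool.Agent.J4.H67.PC.fourier p hp x
  · exact Pool.Agent.J4.H67.PC.dens_eq p hp hs k
  · obtain ⟨M, h1, h2, h3⟩ := Pool.Agent.J4.H67.PC.sup_chi (d := d) X hX
    refine ⟨M, h1, fun q hq hs hχ k => ?_, h3⟩
    have := h2 q hq hs hχ k
    rwa [Pool.Agent.J4.H67.PC.dens_eq q hq hs k] at this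
  · exact (ae_restrict_iff' Pool.Agent.Results.MP_54f242_pr.InfraredMean.cube_meas).1
      Pool.Agent.J4.H67.PC.ae_log
  · have hM : ∀ᵐ k ∂(volume.restrict (cube d)), Pool.Agent.J4.H67.PC.MM d p k < ⊤ :=
      ae_lt_top (Pool.Agent.J4.H67.PC.MM_meas _) (ne_top_of_le_ne_top
        (ENNReal.mul_ne_top ENNReal.ofReal_ne_top h) (Pool.Agent.J4.H67.PC.int_MM p hp))
    have hf := Pool.Agent.J4.H67.PC.fin_of_lg p hp h
    rw [← ae_restrict_iff' Pool.Agent.Results.MP_54f242_pr.InfraredMean.cube_meas]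
    filter_upwards [hM] with k hk
    refine ⟨⟨(Pool.Agent.J4.H67.PC.MM d p k).toNNReal, fun q hq hqp => ?_⟩,
      fun q hq hqp hlim => Pool.Agent.J4.H67.PC.conv p hp hf k hk.ne q hq hqp hlim⟩
    rw [ENNReal.coe_toNNReal hk.ne]
    exact Pool.Agent.J4.H67.PC.dens_le_MM q hq p (by exact_mod_cast hqp) k

end Pool.Agent.Results.MP_54f242_pr.MaximalFunction
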