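import Pool.Agent.J4.H90.Perc.Shell

/-!
# Weak forms of the infrared bound are equivalent to power laws at the critical point

Bond percolation on `ℤ^d`, `d ≥ 1`, `C` the cluster of the origin, `θ(p) = P_p(|C| = ∞)`,
`p_c = sup {p : θ(p) = 0}`. Let `f_p(k) = E_p[|∑_{x ∈ C} e^{i k x}|² / |C| ; |C| < ∞]`, which is
`τ̂_p(k)` whenever the susceptibility is finite (so for all `p < p_c`, by the sharpness of the phase
transition). The following are equivalent, for every `d`: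

1. `f_p ≤ M` for all `p < p_c` with some `M ∈ L^{1+δ}((-π, π]^d)`, `δ > 0`;
2. the norms of `f_p`, `p < p_c`, in `L^{1+δ}((-π, π]^d)` are bounded, for some `δ > 0`;
3. `∫_{|k_i| ≤ r} f_p(k) dk ≤ C r^a` for all `p < p_c` and `r ≤ 1`, for some `a > 0`;
4. `∑_{|x_i| ≤ n} τ_p(x) ≤ C n^{d-a}` for all `p < p_c` and `n ≥ 1`, for some `a > 0`;
5. `P_{p_c}(|C| ≥ n) ≤ C n^{-c}` for some `c > 0`;
6. `P_{p_c}(0 ↔ distance n) ≤ C n^{-c}` for some `c > 0`;
7. `τ_{p_c}(x) ≤ C |x|^{-c}` for some `c > 0`.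

The exponents are explicit in 3 ⟹ 6, 5 and in 5 ⟹ 1. The infrared bound with any power `s < d / 2` of
`1 - D̂` in the place of `1 - D̂` implies 3. The square of the one-arm probability at `p_c` is bounded in
terms of the mass of `f_p`, `p < p_c`, in small cubes.

Proof. 3 ⟹ 6: two vertices of a box of radius `n` which are connected to distance `n^A` belong to
the same cluster up to an event of probability `n^{-1}` (two-arm estimate at polynomial scales), so by the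
inequality of Harris the square of the one-arm probability is at most `τ_{p_c}(x) + C/n` for all `|x| ≤ n`.
This is averaged with the law of the lazy random walk after `n` steps, whose Fourier transform is
concentrated on `|k| ≤ n^{-1/4}`, and `τ_{p_c}` is the limit of `τ_p` as `p ↑ p_c`. 5 ⟹ 1: the maximal
inequality over the parameters for the increasing clusters, with a power of `|C|` as weight.
-/

set_option autoImplicit false

open MeasureTheory Set

namespace Pool.Agent.Results.MP_54f242_pr.PowerLawDecay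

open Pool.Agent.Results.MP_54f242_pr.InfraredMean (P tau cube opn)
open Pool.Agent.J4.H67.PC (cl dens)
open Pool.Agent.J4.H90.Perc (theta pcrit pcrit_le arm vol)

/-- the Fourier transform of the two-point function, at parameters of finite susceptibility -/
noncomputable def tauhat (d : ℕ) (p : NNReal) (hp : p ≤ 1) (k : Fin d → ℝ) : ℝ :=
  ∑' x : Fin d → ℤ, tau d p hp x * Real.cos (∑ i : Fin d, k i * (x i : ℝ))

/-- the transform of the step distribution of the simple random walk -/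
noncomputable def Dhat {d : ℕ} (k : Fin d → ℝ) : ℝ := (1 / (d : ℝ)) * ∑ i : Fin d, Real.cos (k i)

/-- the sup norm -/
noncomputable def sn {d : ℕ} (x : Fin d → ℤ) : ℕ := Finset.univ.sup fun i => (x i).natAbs

/-- the small cube -/
def small (d : ℕ) (r : ℝ) : Set (Fin d → ℝ) := {k | ∀ i, |k i| ≤ r}

theorem small_eq {d : ℕ} {r : ℝ} (hr : r ≤ 1) : cube d ∩ Pool.Agent.J4.H90.Perc.sm d r = small d r := by
  ext k
  constructor
  · exact fun h => h.2
  · intro h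
    refine ⟨?_, h⟩
    rw [cube, Set.mem_univ_pi]
    intro i
    have h1 := abs_le.1 ((h i).trans hr)
    have h2 := Real.pi_gt_three
    exact ⟨by linarith [h1.1], by linarith [h1.2]⟩

theorem result (d : ℕ) (hd : 1 ≤ d) :
    (∀ (p : NNReal) (hp : p ≤ 1), Summable (tau d p hp) →
      ∀ k, dens d p hp k = ENNReal.ofReal (tauhat d p hp k)) ∧
    [∃ δ : ℝ, 0 < δ ∧ ∃ M : (Fin d → ℝ) → ENNReal, Measurable M ∧
        ∫⁻ k in cube d, M k ^ (1 + δ) ≠ ⊤ ∧
        ∀ (p : NNReal) (hp : p ≤ 1), p < pcrit d → ∀ k, dens d p hp k ≤ M k,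
      ∃ δ : ℝ, 0 < δ ∧ ∃ C : ℝ, ∀ (p : NNReal) (hp : p ≤ 1), p < pcrit d →
        ∫⁻ k in cube d, dens d p hp k ^ (1 + δ) ≤ ENNReal.ofReal C,
      ∃ a : ℝ, 0 < a ∧ ∃ C : ℝ, ∀ (p : NNReal) (hp : p ≤ 1), p < pcrit d →
        ∀ r : ℝ, 0 < r → r ≤ 1 →
          ∫⁻ k in small d r, dens d p hp k ≤ ENNReal.ofReal (C * r ^ a),
      ∃ a : ℝ, 0 < a ∧ ∃ C : ℝ, ∀ (p : NNReal) (hp : p ≤ 1), p < pcrit d →
        ∀ n : ℕ, 1 ≤ n → ∑ x ∈ Fintype.piFinset (fun _ : Fin d => Finset.Icc (-(n : ℤ)) n),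
          tau d p hp x ≤ C * (n : ℝ) ^ ((d : ℝ) - a),
      ∃ c : ℝ, 0 < c ∧ ∃ C : ℝ, ∀ n : ℕ, 1 ≤ n →
        (P d (pcrit d) pcrit_le {ω | (n : ℕ∞) ≤ (cl ω).encard}).toReal ≤ C * (n : ℝ) ^ (-c),
      ∃ c : ℝ, 0 < c ∧ ∃ C : ℝ, ∀ n : ℕ, 1 ≤ n →
        (P d (pcrit d) pcrit_le {ω | ∃ x ∈ cl ω, n ≤ sn x}).toReal ≤ C * (n : ℝ) ^ (-c),
      ∃ c : ℝ, 0 < c ∧ ∃ C : ℝ, ∀ x : Fin d → ℤ, x ≠ 0 →
        tau d (pcrit d) pcrit_le x ≤ C * (sn x : ℝ) ^ (-c)].TFAE ∧
    (∀ a C : ℝ, 0 < a → a ≤ 4 →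
      (∀ (p : NNReal) (hp : p ≤ 1), p < pcrit d → ∀ r : ℝ, 0 < r → r ≤ 1 →
        ∫⁻ k in small d r, dens d p hp k ≤ ENNReal.ofReal (C * r ^ a)) →
      ∃ C' : ℝ, ∀ n : ℕ, 1 ≤ n →
        (P d (pcrit d) pcrit_le {ω | ∃ x ∈ cl ω, n ≤ sn x}).toReal ≤
          C' * (n : ℝ) ^ (-(a / (16 * (2 * d ^ 2 + 3 * d + 1)))) ∧
        (P d (pcrit d) pcrit_le {ω | (n : ℕ∞) ≤ (cl ω).encard}).toReal ≤
          C' * (n : ℝ) ^ (-(a / (16 * (2 * d ^ 2 + 3 * d + 1)) / d))) ∧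
    (∀ c C δ : ℝ, 0 < δ → δ < c →
      (∀ n : ℕ, 1 ≤ n →
        (P d (pcrit d) pcrit_le {ω | (n : ℕ∞) ≤ (cl ω).encard}).toReal ≤ C * (n : ℝ) ^ (-c)) →
      ∃ M : (Fin d → ℝ) → ENNReal, Measurable M ∧ ∫⁻ k in cube d, M k ^ (1 + δ) ≠ ⊤ ∧
        ∀ (p : NNReal) (hp : p ≤ 1), p < pcrit d → ∀ k, dens d p hp k ≤ M k) ∧
    (∀ s A : ℝ, 0 ≤ s → 2 * s < d →
      (∀ (p : NNReal) (hp : p ≤ 1), p < pcrit d → ∀ k ∈ cube d,
        dens d p hp k * ENNReal.ofReal ((1 - Dhat k) ^ s) ≤ ENNReal.ofReal A) →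
      ∃ C : ℝ, ∀ (p : NNReal) (hp : p ≤ 1), p < pcrit d → ∀ r : ℝ, 0 < r → r ≤ 1 →
        ∫⁻ k in small d r, dens d p hp k ≤ ENNReal.ofReal (C * r ^ ((d : ℝ) - 2 * s))) ∧
    (∃ C : ℝ, ∀ (n L : ℕ) (r m : ℝ), 1 ≤ L → n ≤ L → 0 ≤ r → r ≤ 1 → 0 ≤ m →
      (∀ (p : NNReal) (hp : p ≤ 1), p < pcrit d →
        ∫⁻ k in small d r, dens d p hp k ≤ ENNReal.ofReal m) →
      (P d (pcrit d) pcrit_le {ω | ∃ x ∈ cl ω, L + n ≤ sn x}).toReal ^ 2 ≤
        m / (2 * Real.pi) ^ d + Real.exp (-(n * r ^ 2 / (d * Real.pi ^ 2))) +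
          C * ((n : ℝ) + 1) ^ (2 * d ^ 2 + 3 * d) / √(L : ℝ)) := by
  have harm : ∀ n : ℕ, (P d (pcrit d) pcrit_le {ω | ∃ x ∈ cl ω, n ≤ sn x}).toReal ≤
      arm d (pcrit d) pcrit_le n := by
    intro n
    unfold arm
    refine ENNReal.toReal_mono (measure_ne_top _ _) (measure_mono ?_)
    rintro ω ⟨x, hx, hn⟩
    obtain ⟨i, hi⟩ := Pool.Agent.Y990.CB.exists_nm hd x
    have hn' : n ≤ Pool.Agent.Y990.CB.nm x := hn
    exact ⟨x, ⟨i, by rw [hi]; exact_mod_cast hn'⟩, hx⟩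
  have harm2 : ∀ n : ℕ, arm d (pcrit d) pcrit_le n ≤
      (P d (pcrit d) pcrit_le {ω | ∃ x ∈ cl ω, n ≤ sn x}).toReal := by
    intro n
    unfold arm
    refine ENNReal.toReal_mono (measure_ne_top _ _) (measure_mono ?_)
    rintro ω ⟨x, ⟨i, hi⟩, hx⟩
    have h1 := Pool.Agent.Y990.CB.abs_le_nm x i
    exact ⟨x, hx, show n ≤ Pool.Agent.Y990.CB.nm x by
      exact_mod_cast (hi.trans h1)⟩
  have hmono : ∀ (C r a : ℝ), 0 < r → ENNReal.ofReal (C * r ^ a) ≤
      ENNReal.ofReal (max C 0 * r ^ a) := by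
    intro C r a hr
    refine ENNReal.ofReal_le_ofReal ?_
    exact mul_le_mul_of_nonneg_right (le_max_left _ _) (by positivity)
  -- the explicit implications
  have P3 : ∀ a C : ℝ, 0 < a → a ≤ 4 →
      (∀ (p : NNReal) (hp : p ≤ 1), p < pcrit d → ∀ r : ℝ, 0 < r → r ≤ 1 →
        ∫⁻ k in small d r, dens d p hp k ≤ ENNReal.ofReal (C * r ^ a)) →
      ∃ C' : ℝ, ∀ n : ℕ, 1 ≤ n →
        (P d (pcrit d) pcrit_le {ω | ∃ x ∈ cl ω, n ≤ sn x}).toReal ≤
          C' * (n : ℝ) ^ (-(a / (16 * (2 * d ^ 2 + 3 * d + 1)))) ∧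
        (P d (pcrit d) pcrit_le {ω | (n : ℕ∞) ≤ (cl ω).encard}).toReal ≤
          C' * (n : ℝ) ^ (-(a / (16 * (2 * d ^ 2 + 3 * d + 1)) / d)) := by
    intro a C ha ha4 h
    obtain ⟨C1, hC1, h1⟩ := Pool.Agent.J4.H90.Perc.arm_of_mass hd a (max C 0) ha ha4
      (le_max_right _ _) (fun p hp hlt r hr hr1 => by
        rw [small_eq hr1]
        exact (h p hp hlt r hr hr1).trans (hmono C r a hr))
    obtain ⟨C2, hC2, h2⟩ := Pool.Agent.J4.H90.Perc.vol_of_arm hd (pcrit d) pcrit_le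
      (a / (16 * (2 * d ^ 2 + 3 * d + 1))) C1 (by positivity) hC1 h1
    refine ⟨max C1 C2, fun n hn => ⟨?_, ?_⟩⟩
    · refine (harm n).trans ((h1 n hn).trans ?_)
      exact mul_le_mul_of_nonneg_right (le_max_left _ _) (by positivity)
    · refine (h2 n hn).trans ?_
      exact mul_le_mul_of_nonneg_right (le_max_right _ _) (by positivity)
  have P4 : ∀ c C δ : ℝ, 0 < δ → δ < c →
      (∀ n : ℕ, 1 ≤ n →
        (P d (pcrit d) pcrit_le {ω | (n : ℕ∞) ≤ (cl ω).encard}).toReal ≤ C * (n : ℝ) ^ (-c)) →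
      ∃ M : (Fin d → ℝ) → ENNReal, Measurable M ∧ ∫⁻ k in cube d, M k ^ (1 + δ) ≠ ⊤ ∧
        ∀ (p : NNReal) (hp : p ≤ 1), p < pcrit d → ∀ k, dens d p hp k ≤ M k := by
    intro c C δ hδ hδc h
    refine Pool.Agent.J4.H90.Perc.majorant c (max C 0) δ hδ hδc (le_max_right _ _) fun n hn =>
      (h n hn).trans ?_
    exact mul_le_mul_of_nonneg_right (le_max_left _ _) (by positivity)
  refine ⟨fun p hp hs k => Pool.Agent.J4.H67.PC.dens_eq p hp hs k, ?_, P3, P4, ?_, ?_⟩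
  · tfae_have 1 → 2 := by
      rintro ⟨δ, hδ, M, -, hM2, hM3⟩
      refine ⟨δ, hδ, (∫⁻ k in cube d, M k ^ (1 + δ)).toReal, fun p hp hlt => ?_⟩
      rw [ENNReal.ofReal_toReal hM2]
      exact lintegral_mono fun k => ENNReal.rpow_le_rpow (hM3 p hp hlt k) (by linarith)
    tfae_have 2 → 3 := by
      rintro ⟨δ, hδ, C, h⟩
      refine ⟨d * δ / (1 + δ), by positivity,
        max C 0 ^ (1 / (1 + δ)) * (2 ^ d : ℝ) ^ (δ / (1 + δ)), fun p hp hlt r hr hr1 => ?_⟩
      rw [← small_eq hr1]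
      exact Pool.Agent.J4.H90.Perc.mass_of_moment δ hδ (dens d p hp)
        (Pool.Agent.J4.H67.PC.dens_meas p hp) (max C 0) (le_max_right _ _)
        ((h p hp hlt).trans (ENNReal.ofReal_le_ofReal (le_max_left _ _))) r hr
    tfae_have 3 → 6 := by
      rintro ⟨a, ha, C, h⟩
      obtain ⟨C', h'⟩ := P3 (min a 4) (max C 0) (by positivity) (min_le_right _ _)
        (fun p hp hlt r hr hr1 => by
          refine (h p hp hlt r hr hr1).trans ((hmono C r a hr).trans ?_)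
          refine ENNReal.ofReal_le_ofReal (mul_le_mul_of_nonneg_left ?_ (le_max_right _ _))
          exact Real.rpow_le_rpow_of_exponent_ge hr hr1 (min_le_left _ _))
      exact ⟨min a 4 / (16 * (2 * d ^ 2 + 3 * d + 1)), by positivity, C', fun n hn => (h' n hn).1⟩
    tfae_have 6 → 5 := by
      rintro ⟨c, hc, C, h⟩
      obtain ⟨C', -, h'⟩ := Pool.Agent.J4.H90.Perc.vol_of_arm hd (pcrit d) pcrit_le c (max C 0) hc
        (le_max_right _ _) (fun n hn => ((harm2 n).trans (h n hn)).trans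
          (mul_le_mul_of_nonneg_right (le_max_left _ _) (by positivity)))
      exact ⟨c / d, by positivity, C', h'⟩
    tfae_have 5 → 1 := by
      rintro ⟨c, hc, C, h⟩
      exact ⟨c / 2, by positivity, P4 c C (c / 2) (by positivity) (by linarith) h⟩
    tfae_have 6 → 7 := by
      rintro ⟨c, hc, C, h⟩
      refine ⟨c, hc, C, fun x hx => ?_⟩
      have hx1 : 1 ≤ sn x := by
        by_contra hcon
        apply hx
        have h0 : Pool.Agent.Y990.CB.nm x = 0 := by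
          have : sn x = 0 := by omega
          exact this
        funext i
        have h1 := Pool.Agent.Y990.CB.abs_le_nm x i
        rw [h0] at h1
        have h2 := abs_nonneg (x i)
        have h3 : |x i| = 0 := le_antisymm (by exact_mod_cast h1) h2
        exact abs_eq_zero.1 h3
      refine le_trans ?_ (h (sn x) hx1)
      unfold tau
      refine ENNReal.toReal_mono (measure_ne_top _ _) (measure_mono fun ω hω => ?_)
      exact ⟨x, hω, le_rfl⟩
    tfae_have 7 → 4 := by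
      rintro ⟨c, hc, C, h⟩
      refine ⟨min ((d : ℝ) / 2) (c / 2), by positivity, 3 ^ d * (1 + max C 0),
        fun p hp hlt n hn => ?_⟩
      have h1 := Pool.Agent.J4.H90.Perc.sum_of_tau hd c (max C 0) hc (le_max_right _ _)
        (fun x hx => (h x hx).trans (mul_le_mul_of_nonneg_right (le_max_left _ _) (by positivity)))
        p hp hlt n hn
      refine le_trans (le_of_eq ?_) h1
      unfold Pool.Agent.Y990.CB.Bf
      refine Finset.sum_congr ?_ fun _ _ => rfl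
      simp
    tfae_have 4 → 3 := by
      rintro ⟨a, ha, C, h⟩
      refine ⟨a, ha, (2 * Real.pi) ^ d * ((2 * max C 0 * 2 ^ ((d : ℝ) - a) + 1) * (4 * d) ^ a),
        fun p hp hlt r hr hr1 => ?_⟩
      rw [← small_eq hr1]
      refine Pool.Agent.J4.H90.Perc.mass_of_sum hd a (max C 0) ha (le_max_right _ _) p hp
        (Pool.Agent.J4.H90.Perc.fin_of_lt p hp hlt) (fun n hn => ?_) r hr hr1
      refine le_trans (le_of_eq ?_) ((h p hp hlt n hn).trans
        (mul_le_mul_of_nonneg_right (le_max_left _ _) (by positivity)))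
      unfold Pool.Agent.Y990.CB.Bf
      refine Finset.sum_congr ?_ fun _ _ => rfl
      simp
    tfae_finish
  · intro s A hs hsd h
    refine ⟨max A 0 * (2 / (d * Real.pi ^ 2)) ^ (-s) * 2 ^ ((d : ℝ) + 2 * s) *
      (1 - (2 : ℝ) ^ (-((d : ℝ) - 2 * s)))⁻¹, fun p hp hlt r hr hr1 => ?_⟩
    rw [← small_eq hr1]
    exact Pool.Agent.J4.H90.Perc.mass_of_point hd s (max A 0) hs hsd (le_max_right _ _)
      (dens d p hp) (fun k hk => (h p hp hlt k hk).trans
        (ENNReal.ofReal_le_ofReal (le_max_left _ _))) r hr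
  · obtain ⟨C, -, h⟩ := Pool.Agent.J4.H90.Perc.arm_mass hd
    refine ⟨C, fun n L r m hL hnL hr hr1 hm hmass => ?_⟩
    refine le_trans (pow_le_pow_left₀ ENNReal.toReal_nonneg (harm (L + n)) 2)
      (h n L r m hL hnL hr hm fun p hp hlt => ?_)
    rw [small_eq hr1]
    exact hmass p hp hlt

end Pool.Agent.Results.MP_54f242_pr.PowerLawDecay
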