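import Pool.Agent.J4.H67.PC.Tv2

/-!
# The two-point function of percolation in Fourier space, as a curve in the parameter

Bond percolation on `ℤ^d`, `C` the cluster of the origin,
`f_p(k) = E_p[|∑_{x ∈ C} e^{i k x}|² / |C| ; |C| < ∞]`; this is `τ̂_p(k)` if the susceptibility `χ(p)` is
finite. Norms in `L¹((-π, π]^d, dk)`.

* If all clusters are finite at `q` and `p ≤ q`, then
  `‖f_q - f_p‖ ≤ 4 (2π)^d (E_q √|C| - E_p √|C|)`, and
  `‖f_q - f_p‖² ≤ (16 / log 2) (2π)^{2d} (E_q log |C| - E_p log |C|)`.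
  So the curve `p ↦ f_p` has length at most `4 (2π)^d E_q √|C|` up to `q`, and quadratic variation at most
  `(16 / log 2) (2π)^{2d} E_q log |C|`; the latter is finite at `p_c` if `E_{p_c} log |C| < ∞`.
* For almost every `k` the total variation of `p ↦ τ̂_p(k)` up to a parameter `q` of finite
  susceptibility is at most `C(k) m (1 + log m)²`, where `m = E_q √|C| ≤ √χ(q)`; its integral over `k` is at
  most `4 (2π)^d m`.

(If `P_p(|C| ≥ n) ≤ c / √n`, as in the mean-field regime, then `m` is of the order of `log χ`, and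
`E log |C|` is bounded.)

Proof. The cluster at `q` is the union of clusters at `p`. For disjoint finite sets the mean over `k` of
the cross term is at most `2 (2π)^d √(|A| |B|) ≤ 4 (2π)^d ((|A| + |B|)^{3/2} - |A|^{3/2} - |B|^{3/2})`; if the largest
part is merged with all the others the change is at most `4 (2π)^d √(|C| (|C| - |A_max|))`, and
`log 2 (|C| - |A_max|)` is at most the entropy `|C| log |C| - ∑ |A| log |A|`. Mass transport in the
coupling of the two parameters turns both bounds into differences of expectations.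
-/

set_option autoImplicit false

namespace Pool.Agent.Results.MP_54f242_pr.VariationInP

open MeasureTheory Filter Topology
open Pool.Agent.Results.MP_54f242_pr.InfraredMean (P tau chi cube opn)
open Pool.Agent.J4.H67.PC (cl cf ps dens)

/-- the Fourier transform of the two-point function, at parameters of finite susceptibility -/
noncomputable def tauhat (d : ℕ) (p : NNReal) (hp : p ≤ 1) (k : Fin d → ℝ) : ℝ :=
  ∑' x : Fin d → ℤ, tau d p hp x * Real.cos (∑ i : Fin d, k i * (x i : ℝ))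

/-- `E_p √|C|` -/
noncomputable def meanSqrt (d : ℕ) (p : NNReal) (hp : p ≤ 1) : ℝ :=
  ∫ ω, Real.sqrt (cf ω).card ∂(P d p hp)

/-- `E_p log |C|` -/
noncomputable def meanLog (d : ℕ) (p : NNReal) (hp : p ≤ 1) : ℝ :=
  ∫ ω, Real.log (cf ω).card ∂(P d p hp)

/-- `‖f_q - f_p‖` in `L¹` -/
noncomputable def dist1 (d : ℕ) (p q : NNReal) (hp : p ≤ 1) (hq : q ≤ 1) : ℝ :=
  ∫ k in cube d, |(dens d q hq k).toReal - (dens d p hp k).toReal|

section proof

open Pool.Agent.J4.H67.PC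

theorem meanSqrt_eq (d : ℕ) (p : NNReal) (hp : p ≤ 1) : meanSqrt d p hp = ms d p hp := by
  unfold meanSqrt ms
  rw [integral_eq_lintegral_of_nonneg_ae (Eventually.of_forall fun ω => Real.sqrt_nonneg _)]
  · rfl
  · exact ((measurable_of_countable (fun A : Finset (Fin d → ℤ) => Real.sqrt A.card)).comp
      meas_cf).aestronglyMeasurable

theorem meanLog_eq (d : ℕ) (p : NNReal) (hp : p ≤ 1) :
    meanLog d p hp = (∫⁻ ω, ln ω ∂(P d p hp)).toReal := by
  unfold meanLog
  rw [integral_eq_lintegral_of_nonneg_ae (Eventually.of_forall fun ω =>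
    Real.log_natCast_nonneg _)]
  · rfl
  · exact ((measurable_of_countable (fun A : Finset (Fin d → ℤ) => Real.log A.card)).comp
      meas_cf).aestronglyMeasurable

theorem dist1_le (d : ℕ) (p q : NNReal) (hp : p ≤ 1) (hq : q ≤ 1)
    (hf : ∀ᵐ ω ∂(P d q hq), (cl ω).Finite) (hD : ∫⁻ k in cube d, DD d p q k ≠ ⊤) :
    dist1 d p q hp hq ≤ (∫⁻ k in cube d, DD d p q k).toReal := by
  have hDfin := ae_lt_top (DD_meas (d := d) p q) hD
  have hsm : AEStronglyMeasurable (fun k => |(dens d q hq k).toReal -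
      (dens d p hp k).toReal|) (volume.restrict (cube d)) := by
    have h1 : Measurable fun k => (dens d q hq k).toReal - (dens d p hp k).toReal :=
      (dens_meas _ _).ennreal_toReal.sub (dens_meas _ _).ennreal_toReal
    exact (continuous_abs.measurable.comp h1).aestronglyMeasurable
  unfold dist1
  rw [integral_eq_lintegral_of_nonneg_ae (Eventually.of_forall fun k => abs_nonneg _) hsm]
  refine ENNReal.toReal_mono hD (lintegral_mono_ae ?_)
  filter_upwards [hDfin, dens_fin (d := d) p hp, dens_fin (d := d) q hq] with k h1 h2 h3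
  obtain ⟨h4, h5⟩ := dens_DD (d := d) p q hp hq hf k
  have h6 := ENNReal.toReal_mono (ENNReal.add_ne_top.2 ⟨h2.ne, h1.ne⟩) h4
  have h7 := ENNReal.toReal_mono (ENNReal.add_ne_top.2 ⟨h3.ne, h1.ne⟩) h5
  rw [ENNReal.toReal_add h2.ne h1.ne] at h6
  rw [ENNReal.toReal_add h3.ne h1.ne] at h7
  rw [ENNReal.ofReal_le_iff_le_toReal h1.ne, abs_le]
  constructor <;> linarith

theorem first (d : ℕ) (p q : NNReal) (hp : p ≤ 1) (hq : q ≤ 1) (h : p ≤ q)
    (hf : ∀ᵐ ω ∂(P d q hq), (cl ω).Finite)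
    (hi : Integrable (fun ω => Real.sqrt (cf ω).card) (P d q hq)) :
    dist1 d p q hp hq ≤ 4 * (2 * Real.pi) ^ d * (meanSqrt d q hq - meanSqrt d p hp) := by
  have h1 := modulus_sq (d := d) p q hp hq h hf
  have hq' : ∫⁻ ω, sq ω ∂(P d q hq) ≠ ⊤ := by
    have h2 := hi.lintegral_lt_top
    exact h2.ne
  have hR : ENNReal.ofReal (4 * (2 * Real.pi) ^ d) * ∫⁻ ω, sq ω ∂(P d q hq) ≠ ⊤ :=
    ENNReal.mul_ne_top ENNReal.ofReal_ne_top hq'
  have hD : ∫⁻ k in cube d, DD d p q k ≠ ⊤ :=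
    ne_top_of_le_ne_top hR (le_self_add.trans h1)
  have hP : ENNReal.ofReal (4 * (2 * Real.pi) ^ d) * ∫⁻ ω, sq ω ∂(P d p hp) ≠ ⊤ :=
    ne_top_of_le_ne_top hR (le_add_self.trans h1)
  have h3 := ENNReal.toReal_mono hR h1
  rw [ENNReal.toReal_add hD hP, ENNReal.toReal_mul, ENNReal.toReal_mul,
    ENNReal.toReal_ofReal (by positivity)] at h3
  have h4 := dist1_le d p q hp hq hf hD
  rw [meanSqrt_eq, meanSqrt_eq]
  unfold ms
  linarith

theorem second (d : ℕ) (p q : NNReal) (hp : p ≤ 1) (hq : q ≤ 1) (h : p ≤ q)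
    (hf : ∀ᵐ ω ∂(P d q hq), (cl ω).Finite)
    (hi : Integrable (fun ω => Real.log (cf ω).card) (P d q hq)) :
    dist1 d p q hp hq ^ 2 ≤
      16 / Real.log 2 * ((2 * Real.pi) ^ d) ^ 2 * (meanLog d q hq - meanLog d p hp) := by
  have h1 := modulus_ln (d := d) p q hp hq h hf
  have hl2 : 0 < Real.log 2 := Real.log_pos (by norm_num)
  have hc : 0 < Real.log 2 / (16 * ((2 * Real.pi) ^ d) ^ 2) := by positivity
  have hq' : ∫⁻ ω, ln ω ∂(P d q hq) ≠ ⊤ := hi.lintegral_lt_top.ne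
  have hA : ENNReal.ofReal (Real.log 2 / (16 * ((2 * Real.pi) ^ d) ^ 2)) *
      (∫⁻ k in cube d, DD d p q k) ^ 2 ≠ ⊤ := ne_top_of_le_ne_top hq' (le_self_add.trans h1)
  have hP : ∫⁻ ω, ln ω ∂(P d p hp) ≠ ⊤ := ne_top_of_le_ne_top hq' (le_add_self.trans h1)
  have hD : ∫⁻ k in cube d, DD d p q k ≠ ⊤ := by
    intro h2
    rw [h2, ENNReal.top_pow two_ne_zero, ENNReal.mul_top] at hA
    · exact hA rfl
    · rw [Ne, ENNReal.ofReal_eq_zero, not_le]; exact hc
  have h3 := ENNReal.toReal_mono hq' h1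
  rw [ENNReal.toReal_add hA hP, ENNReal.toReal_mul, ENNReal.toReal_pow,
    ENNReal.toReal_ofReal hc.le] at h3
  have h4 := dist1_le d p q hp hq hf hD
  have h0 : 0 ≤ dist1 d p q hp hq := integral_nonneg fun k => abs_nonneg _
  rw [meanLog_eq, meanLog_eq]
  have h5 : dist1 d p q hp hq ^ 2 ≤ (∫⁻ k in cube d, DD d p q k).toReal ^ 2 :=
    pow_le_pow_left₀ h0 h4 2
  refine h5.trans ?_
  have h6 : Real.log 2 / (16 * ((2 * Real.pi) ^ d) ^ 2) *
      (∫⁻ k in cube d, DD d p q k).toReal ^ 2 ≤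
      (∫⁻ ω, ln ω ∂(P d q hq)).toReal - (∫⁻ ω, ln ω ∂(P d p hp)).toReal := by linarith
  have h7 := mul_le_mul_of_nonneg_left h6
    (by positivity : 0 ≤ 16 / Real.log 2 * ((2 * Real.pi) ^ d) ^ 2)
  refine le_trans (le_of_eq ?_) h7
  field_simp

end proof

theorem result (d : ℕ) :
    (∀ (p q : NNReal) (hp : p ≤ 1) (hq : q ≤ 1), p ≤ q → (∀ᵐ ω ∂(P d q hq), (cl ω).Finite) →
      (Integrable (fun ω => Real.sqrt (cf ω).card) (P d q hq) →
        dist1 d p q hp hq ≤ 4 * (2 * Real.pi) ^ d * (meanSqrt d q hq - meanSqrt d p hp)) ∧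
      (Integrable (fun ω => Real.log (cf ω).card) (P d q hq) →
        dist1 d p q hp hq ^ 2 ≤ 16 / Real.log 2 * ((2 * Real.pi) ^ d) ^ 2 *
          (meanLog d q hq - meanLog d p hp))) ∧
    (∀ (q : NNReal) (hq : q ≤ 1), Summable (tau d q hq) →
      (∀ k, dens d q hq k = ENNReal.ofReal (tauhat d q hq k)) ∧
      Integrable (fun ω => Real.sqrt (cf ω).card) (P d q hq) ∧
      1 ≤ meanSqrt d q hq ∧ meanSqrt d q hq ≤ Real.sqrt (chi d q hq) ∧
      ∃ V : (Fin d → ℝ) → ENNReal, Measurable V ∧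
        ∫⁻ k in cube d, V k ≤ ENNReal.ofReal (4 * (2 * Real.pi) ^ d * meanSqrt d q hq) ∧
        ∀ᵐ k : Fin d → ℝ, k ∈ cube d → ∀ (m : ℕ) (p : ℕ → NNReal) (hp : ∀ i, p i ≤ 1),
          Monotone p → (∀ i, p i ≤ q) → ENNReal.ofReal (∑ i ∈ Finset.range m,
            |tauhat d (p (i + 1)) (hp (i + 1)) k - tauhat d (p i) (hp i) k|) ≤ V k) ∧
    (∀ᵐ k : Fin d → ℝ, k ∈ cube d → ∃ c : ℝ, ∀ (q : NNReal) (hq : q ≤ 1),
      Summable (tau d q hq) → ∀ (m : ℕ) (p : ℕ → NNReal) (hp : ∀ i, p i ≤ 1),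
        Monotone p → (∀ i, p i ≤ q) →
          ∑ i ∈ Finset.range m, |tauhat d (p (i + 1)) (hp (i + 1)) k - tauhat d (p i) (hp i) k| ≤
            c * (meanSqrt d q hq * (1 + Real.log (meanSqrt d q hq)) ^ 2)) := by
  refine ⟨fun p q hp hq h hf => ⟨fun hi => first d p q hp hq h hf hi,
    fun hi => second d p q hp hq h hf hi⟩, fun q hq hs => ?_, ?_⟩
  · have hsqfin := Pool.Agent.J4.H67.PC.sq_fin q hq hs
    have hms : ∫⁻ ω, Pool.Agent.J4.H67.PC.sq ω ∂(P d q hq) =
        ENNReal.ofReal (meanSqrt d q hq) := by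
      rw [meanSqrt_eq]
      exact (ENNReal.ofReal_toReal hsqfin).symm
    refine ⟨fun k => Pool.Agent.J4.H67.PC.dens_eq q hq hs k, ?_, ?_, ?_, ?_⟩
    · refine ⟨((measurable_of_countable (fun A : Finset (Fin d → ℤ) => Real.sqrt A.card)).comp
        Pool.Agent.J4.H67.PC.meas_cf).aestronglyMeasurable, ?_⟩
      rw [hasFiniteIntegral_iff_ofReal (Eventually.of_forall fun ω => Real.sqrt_nonneg _)]
      exact lt_top_iff_ne_top.2 hsqfin
    · rw [meanSqrt_eq]; exact Pool.Agent.J4.H67.PC.ms_ge q hq hs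
    · rw [meanSqrt_eq]; exact Pool.Agent.J4.H67.PC.ms_le q hq hs
    · refine ⟨Pool.Agent.J4.H67.PC.VV d q, Pool.Agent.J4.H67.PC.VV_meas _, ?_, ?_⟩
      · have h1 := Pool.Agent.J4.H67.PC.int_VV q hq (Pool.Agent.J4.H67.PC.ae_fin q hq hs)
        rw [hms, ← ENNReal.ofReal_mul (by positivity)] at h1
        exact h1
      · rw [← ae_restrict_iff' Pool.Agent.Results.MP_54f242_pr.InfraredMean.cube_meas]
        filter_upwards [Pool.Agent.J4.H67.PC.MM_fin q hq hs] with k hk m p hp hmono hpq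
        have h1 := Pool.Agent.J4.H67.PC.var_le q hq (Pool.Agent.J4.H67.PC.ae_fin q hq hs) k hk.ne
          m p hmono hpq
        have hsp : ∀ i, Summable (tau d (p i) (hp i)) := fun i =>
          Pool.Agent.J4.H67.PC.summable_mono _ q _ hq (hpq i) hs
        simp_rw [fun i => Pool.Agent.J4.H67.PC.dl_hat (p i) (p (i + 1)) (hp i) (hp (i + 1))
          (hsp i) (hsp (i + 1)) k] at h1
        rw [← ENNReal.ofReal_sum_of_nonneg (fun i _ => abs_nonneg _)] at h1
        exact h1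
  · rw [← ae_restrict_iff' Pool.Agent.Results.MP_54f242_pr.InfraredMean.cube_meas]
    filter_upwards [Pool.Agent.J4.H67.PC.ae_var (d := d)] with k hk
    obtain ⟨c, hc⟩ := hk
    refine ⟨c, fun q hq hs m p hp hmono hpq => ?_⟩
    rw [meanSqrt_eq]
    exact hc q hq hs m p hp hmono hpq

end Pool.Agent.Results.MP_54f242_pr.VariationInP
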