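import Pool.Agent.J4.H90.Perc.Q6
import Pool.Agent.J4.H90.Perc.Conv

/-!
# A weak infrared bound in all dimensions and the limit of `τ̂_p` as `p ↑ p_c`

Bond percolation on `ℤ^d`, `d ≥ 1`, `C` the cluster of the origin, `θ(p) = P_p(|C| = ∞)`,
`p_c = sup {p : θ(p) = 0}`. Let `f_p(k) = E_p[|∑_{x ∈ C} e^{i k x}|² / |C| ; |C| < ∞]`, which is
`τ̂_p(k)` whenever the susceptibility is finite (so for all `p < p_c`, by the sharpness of the phase
transition). The infrared bound asks for `(1 - D̂(k)) τ̂_p(k) ≤ A` for all `p < p_c`.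

* Weak infrared bound, with no hypothesis and in every dimension: uniformly in `p`,
  `∫_{(1 - D̂) f_p > T} (1 - D̂) f_p dk ≤ A / log log T`.
* The limit: for every `p` there is an integrable `g_p ≥ f_p` with
  `τ_p(x) = θ(p)² + (2π)^{-d} ∫ g_p(k) cos(k·x) dk`, and for `g = g_{p_c}` the functions
  `(1 - D̂) |τ̂_p - g|` tend to `0` in mean as `p ↑ p_c`. In particular the measures `τ̂_p(k) dk` converge to
  `(2π)^d θ(p_c)² δ_0 + g(k) dk`, in total variation away from `0`: mass can condense only at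
  `k = 0`, and exactly the mass `(2π)^d θ(p_c)²` does.
* Quantitatively, with `κ = 1 / (32 d (2 d² + 3 d + 1))` and `U(T) = sup_{p < p_c} ∫_{f_p > T} f_p dk`:
  `U(2N) ≤ 2 (2π)^d P_{p_c}(|C| ≥ N)` and `P_{p_c}(|C| ≥ N)² ≤ (2π)^{-d} U(N^κ) + C N^{-κ}`.
* Hence `θ(p_c) = 0` if and only if `τ̂_p` converges in mean as `p ↑ p_c`, if and only if the functions
  `τ̂_p`, `p < p_c`, are uniformly integrable, if and only if they put little mass near `k = 0`, if and only
  if `τ_{p_c}(x) → 0`.

Proof. Give the clusters with at least `B` points independent random signs. The mean over the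
signs of the energy (with respect to a multiplier `0 ≤ v ≤ (1 - D̂)/2`) of the field of signs in a large
box is the sum of the contributions of the large clusters to `∫ v f_p`. In cells of side `N` the large
clusters are constant up to the two-arm probability, so the field is a sign pattern of the cells times
the indicator of the one-arm event to distance `m ≪ N`, up to `P_p(0 ↔ distance m) - P_p(|C| ≥ B)`. The mean
part of it has small energy since the multiplier kills constants on cells, and
the fluctuations are controlled for all patterns simultaneously by an entropy bound, where the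
diagonal terms give `∫ v` times a local spectral density, a trigonometric polynomial. The scale `m` is found by
pigeonholing among `K` scales, each polynomially larger than the one before. If connections in some
box of size at most `N` are too unlikely for the two-arm estimate, arms decay exponentially
instead. For the convergence, the same comparison is made between `p` and `p_c` with the uniqueness of the
infinite cluster instead of the two-arm estimate, and the total mass of `(1 - D̂) f_p` converges.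
-/

set_option autoImplicit false

open MeasureTheory Set Filter Topology

namespace Pool.Agent.Results.MP_54f242_pr.WeakInfraredBound

open Pool.Agent.Results.MP_54f242_pr.InfraredMean (P tau cube opn Dhat)
open Pool.Agent.J4.H67.PC (cl dens)
open Pool.Agent.J4.H90.Perc (theta pcrit pcrit_le)

/-- the spectral density of the finite clusters -/
noncomputable def f (d : ℕ) (p : NNReal) (hp : p ≤ 1) (k : Fin d → ℝ) : ℝ :=
  (dens d p hp k).toReal

/-- the Fourier transform of the two-point function, at parameters of finite susceptibility -/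
noncomputable def tauhat (d : ℕ) (p : NNReal) (hp : p ≤ 1) (k : Fin d → ℝ) : ℝ :=
  ∑' x : Fin d → ℤ, tau d p hp x * Real.cos (∑ i : Fin d, k i * (x i : ℝ))

theorem small_eq {d : ℕ} {r : ℝ} (hr : r ≤ 1) :
    cube d ∩ Pool.Agent.J4.H90.Perc.sm d r = {k : Fin d → ℝ | ∀ i, |k i| ≤ r} := by
  ext k
  constructor
  · exact fun h => h.2
  · intro h
    refine ⟨?_, h⟩
    rw [cube, Set.mem_univ_pi]
    intro i
    have h1 := abs_le.1 ((h i).trans hr)
    have h2 := Real.pi_gt_three
    exact ⟨by linarith [h1.1], by linarith [h1.2]⟩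

theorem nd_eq (d : ℕ) (p : NNReal) (hp : p ≤ 1) (S : Set (Fin d → ℝ)) :
    ∫ k in S, Pool.Agent.J4.H90.Perc.nd d p hp k = (∫ k in S, f d p hp k) / (2 * Real.pi) ^ d := by
  unfold Pool.Agent.J4.H90.Perc.nd f
  rw [integral_div]

theorem f_int (d : ℕ) (p : NNReal) (hp : p ≤ 1) : IntegrableOn (f d p hp) (cube d) :=
  Pool.Agent.J4.H90.Perc.dens_int p hp

theorem lint_f (d : ℕ) (p : NNReal) (hp : p ≤ 1) {S : Set (Fin d → ℝ)} (hS : S ⊆ cube d) :
    ∫⁻ k in S, dens d p hp k = ENNReal.ofReal (∫ k in S, f d p hp k) := by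
  unfold f
  rw [integral_toReal (Pool.Agent.J4.H67.PC.dens_meas p hp).aemeasurable
    (ae_mono (Measure.restrict_mono hS le_rfl) (Pool.Agent.J4.H67.PC.dens_fin p hp)),
    ENNReal.ofReal_toReal]
  exact ne_top_of_le_ne_top (ne_top_of_le_ne_top ENNReal.ofReal_ne_top
    (Pool.Agent.J4.H67.PC.int_dens_le p hp)) (lintegral_mono_set hS)

theorem tail_eq (d : ℕ) (p : NNReal) (hp : p ≤ 1) {T : ℝ} (hT : 0 ≤ T) :
    ∫⁻ k in cube d ∩ {k | ENNReal.ofReal T < dens d p hp k}, dens d p hp k =
      ENNReal.ofReal (∫ k in cube d ∩ {k | T < f d p hp k}, f d p hp k) := by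
  have hm := Pool.Agent.J4.H67.PC.dens_meas (d := d) p hp
  have hfm : Measurable (f d p hp) := hm.ennreal_toReal
  have hA : MeasurableSet {k | ENNReal.ofReal T < dens d p hp k} :=
    measurableSet_lt measurable_const hm
  have hB : MeasurableSet {k | T < f d p hp k} := measurableSet_lt measurable_const hfm
  rw [lint_f d p hp inter_subset_left, ← setIntegral_indicator hA, ← setIntegral_indicator hB]
  congr 2
  funext k
  rcases eq_or_ne (dens d p hp k) ⊤ with h | h
  · have hf : f d p hp k = 0 := by unfold f; rw [h]; rfl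
    have h1 : k ∉ {k | T < f d p hp k} := by
      show ¬ T < f d p hp k
      rw [hf]; linarith
    rw [Set.indicator_of_notMem h1]
    by_cases h2 : k ∈ {k | ENNReal.ofReal T < dens d p hp k}
    · rw [Set.indicator_of_mem h2, hf]
    · rw [Set.indicator_of_notMem h2]
  · have h1 : k ∈ {k | ENNReal.ofReal T < dens d p hp k} ↔ k ∈ {k | T < f d p hp k} := by
      show ENNReal.ofReal T < dens d p hp k ↔ T < f d p hp k
      exact ENNReal.ofReal_lt_iff_lt_toReal hT h
    by_cases h2 : k ∈ {k | T < f d p hp k}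
    · rw [Set.indicator_of_mem h2, Set.indicator_of_mem (h1.2 h2)]
    · rw [Set.indicator_of_notMem h2, Set.indicator_of_notMem (fun h3 => h2 (h1.1 h3))]

theorem result (d : ℕ) (hd : 1 ≤ d) :
    (∀ (p : NNReal) (hp : p ≤ 1), IntegrableOn (f d p hp) (cube d) ∧
      (Summable (tau d p hp) → ∀ k, f d p hp k = tauhat d p hp k)) ∧
    (∃ A : ℝ, ∀ (p : NNReal) (hp : p ≤ 1) (T : ℝ), Real.exp 1 < T →
      ∫ k in cube d ∩ {k | T < (1 - Dhat k) * f d p hp k}, (1 - Dhat k) * f d p hp k ≤
        A / Real.log (Real.log T)) ∧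
    (∀ (p : NNReal) (hp : p ≤ 1), ∃ g : (Fin d → ℝ) → ℝ, IntegrableOn g (cube d) ∧
      (∀ k, f d p hp k ≤ g k) ∧
      (∀ x : Fin d → ℤ, tau d p hp x = theta d p hp ^ 2 +
        (∫ k in cube d, g k * Real.cos (∑ i : Fin d, k i * (x i : ℝ))) / (2 * Real.pi) ^ d) ∧
      (p = pcrit d → ∀ (q : ℕ → NNReal) (hq : ∀ n, q n ≤ 1), (∀ n, q n < p) →
        Tendsto q atTop (𝓝 p) →
        Tendsto (fun n => ∫ k in cube d, (1 - Dhat k) * |f d (q n) (hq n) k - g k|)
          atTop (𝓝 0) ∧
        ∀ (φ : (Fin d → ℝ) → ℝ) (B : ℝ), Measurable φ → (∀ k, |φ k| ≤ B) → ContinuousAt φ 0 →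
          Tendsto (fun n => ∫ k in cube d, φ k * f d (q n) (hq n) k) atTop
            (𝓝 ((2 * Real.pi) ^ d * theta d p hp ^ 2 * φ 0 + ∫ k in cube d, φ k * g k)))) ∧
    (∀ (p : NNReal) (hp : p ≤ 1) (N : ℕ), p < pcrit d →
      ∫ k in cube d ∩ {k | 2 * (N : ℝ) < f d p hp k}, f d p hp k ≤
        2 * (2 * Real.pi) ^ d * (P d (pcrit d) pcrit_le {ω | (N : ℕ∞) ≤ (cl ω).encard}).toReal) ∧
    (∃ C : ℝ, ∀ (N : ℕ) (u : ℝ), 1 ≤ N →
      (∀ (p : NNReal) (hp : p ≤ 1), p < pcrit d →
        ∫ k in cube d ∩ {k | (N : ℝ) ^ (1 / (32 * d * (2 * (d : ℝ) ^ 2 + 3 * d + 1))) < f d p hp k},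
          f d p hp k ≤ u) →
      (P d (pcrit d) pcrit_le {ω | (N : ℕ∞) ≤ (cl ω).encard}).toReal ^ 2 ≤
        u / (2 * Real.pi) ^ d + C * (N : ℝ) ^ (-(1 / (32 * d * (2 * (d : ℝ) ^ 2 + 3 * d + 1))))) ∧
    [theta d (pcrit d) pcrit_le = 0,
      ∀ ε : ℝ, 0 < ε → ∃ T : ℝ, ∀ (p : NNReal) (hp : p ≤ 1), p < pcrit d →
        ∫ k in cube d ∩ {k | T < f d p hp k}, f d p hp k ≤ ε,
      ∀ (q : ℕ → NNReal) (hq : ∀ n, q n ≤ 1), (∀ n, q n < pcrit d) →
        Tendsto q atTop (𝓝 (pcrit d)) →
        Tendsto (fun n => ∫ k in cube d, |f d (q n) (hq n) k - f d (pcrit d) pcrit_le k|)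
          atTop (𝓝 0),
      ∃ g : (Fin d → ℝ) → ℝ, IntegrableOn g (cube d) ∧
        ∀ (q : ℕ → NNReal) (hq : ∀ n, q n ≤ 1), (∀ n, q n < pcrit d) →
          Tendsto q atTop (𝓝 (pcrit d)) →
          Tendsto (fun n => ∫ k in cube d, |f d (q n) (hq n) k - g k|) atTop (𝓝 0),
      ∀ ε : ℝ, 0 < ε → ∃ r : ℝ, 0 < r ∧ r ≤ 1 ∧ ∀ (p : NNReal) (hp : p ≤ 1), p < pcrit d →
        ∫ k in {k : Fin d → ℝ | ∀ i, |k i| ≤ r}, f d p hp k ≤ ε,
      Tendsto (tau d (pcrit d) pcrit_le) cofinite (𝓝 0)].TFAE := by
  have hd0 : (0 : ℝ) < d := by exact_mod_cast hd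
  refine ⟨fun p hp => ⟨f_int d p hp, fun hs k => ?_⟩, ?_, ?_, ?_, ?_, ?_⟩
  · unfold f tauhat
    rw [Pool.Agent.J4.H67.PC.dens_eq p hp hs k]
    exact ENNReal.toReal_ofReal (Pool.Agent.Results.MP_54f242_pr.InfraredMean.hat_nonneg p hp hs k)
  · obtain ⟨A, -, h⟩ := Pool.Agent.J4.H90.Perc.tail_loglog hd
    exact ⟨A, h⟩
  · intro p hp
    have hpi : (0 : ℝ) < (2 * Real.pi) ^ d := by positivity
    by_cases hpc : p = pcrit d
    · subst hpc
      obtain ⟨g, hgm, hgi, hgf, hgx, hgw⟩ := Pool.Agent.J4.H90.Perc.wconv hd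
      have hg0 : ∀ k, 0 ≤ g k := fun k => ENNReal.toReal_nonneg.trans (hgf k)
      refine ⟨g, hgi, hgf, fun x => ?_, fun _ q hq hlt hlim => ?_⟩
      · have h6 : (∫ k in cube d, g k * Real.cos (∑ i : Fin d, k i * (x i : ℝ))) =
            (2 * Real.pi) ^ d * (tau d (pcrit d) pcrit_le x - theta d (pcrit d) pcrit_le ^ 2) :=
          hgx x
        rw [h6, mul_div_cancel_left₀ _ hpi.ne']
        ring
      · have hw := Pool.Agent.J4.H90.Perc.wconv_seq hgw q hq hlt hlim
        refine ⟨hw, fun φ B hφm hφb hφ0 => ?_⟩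
        have hmass : ∫ k in cube d, g k =
            (2 * Real.pi) ^ d * (1 - theta d (pcrit d) pcrit_le ^ 2) := by
          have h0 := hgx 0
          rw [Pool.Agent.Results.MP_54f242_pr.InfraredMean.tau_zero] at h0
          rw [← h0]
          refine integral_congr_ae (Eventually.of_forall fun k => ?_)
          show g k = g k * Real.cos (Pool.Agent.Results.MP_54f242_pr.InfraredMean.dot k 0)
          have : Pool.Agent.Results.MP_54f242_pr.InfraredMean.dot k 0 = 0 := by
            simp [Pool.Agent.Results.MP_54f242_pr.InfraredMean.dot]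
          rw [this, Real.cos_zero, mul_one]
        exact Pool.Agent.J4.H90.Perc.phi_conv hd hgi hg0 hmass q hq hlt hw hφm hφb hφ0
    · obtain ⟨g, -, h2, h3, h4⟩ := Pool.Agent.J4.H90.Perc.spec_tau (d := d) p hp
      refine ⟨g, h2, h3, fun x => ?_, fun h => absurd h hpc⟩
      have h5 := h4 x
      have h6 : (∫ k in cube d, g k * Real.cos (∑ i : Fin d, k i * (x i : ℝ))) =
          (2 * Real.pi) ^ d * (tau d p hp x - theta d p hp ^ 2) := h5
      rw [h6, mul_div_cancel_left₀ _ hpi.ne']
      ring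
  · intro p hp N hlt
    have h1 := Pool.Agent.J4.H90.Perc.UU_le_vol (d := d) N
    have h2 := (Pool.Agent.J4.H90.Perc.le_UU (2 * N : ENNReal) p hp hlt).trans h1
    have e : (2 * N : ENNReal) = ENNReal.ofReal (2 * (N : ℝ)) := by
      rw [ENNReal.ofReal_mul (by norm_num), ENNReal.ofReal_natCast]
      simp
    rw [e, tail_eq d p hp (by positivity)] at h2
    exact (ENNReal.ofReal_le_ofReal_iff (by positivity)).1 h2
  · obtain ⟨C, -, h⟩ := Pool.Agent.J4.H90.Perc.vol_sq_le hd
    refine ⟨C, fun N u hN hu => (h N hN).trans ?_⟩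
    have hu0 : 0 ≤ u := by
      obtain ⟨p, -, h5⟩ := exists_between (Pool.Agent.J4.H90.Perc.pcrit_pos (d := d))
      refine le_trans (integral_nonneg fun k => ?_) (hu p (h5.le.trans pcrit_le) h5)
      exact ENNReal.toReal_nonneg
    have h2 : (Pool.Agent.J4.H90.Perc.UU d (ENNReal.ofReal
        ((N : ℝ) ^ (1 / (32 * d * (2 * (d : ℝ) ^ 2 + 3 * d + 1)))))).toReal ≤ u := by
      refine ENNReal.toReal_le_of_le_ofReal hu0 ?_
      unfold Pool.Agent.J4.H90.Perc.UU
      refine iSup_le fun p => iSup_le fun hp => iSup_le fun hlt => ?_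
      rw [tail_eq d p hp (by positivity)]
      exact ENNReal.ofReal_le_ofReal (hu p hp hlt)
    gcongr
  · tfae_have 1 → 2 := by
      intro h ε hε
      have h1 := Pool.Agent.J4.H90.Perc.UU_tendsto hd h
      rw [ENNReal.tendsto_atTop_zero] at h1
      obtain ⟨N, hN⟩ := h1 (ENNReal.ofReal ε) (by rw [gt_iff_lt, ENNReal.ofReal_pos]; exact hε)
      have hN' := hN N le_rfl
      refine ⟨N, fun p hp hlt => ?_⟩
      have h2 : cube d ∩ {k | (N : ℝ) < f d p hp k} ⊆ cube d ∩ {k | (N : ENNReal) < dens d p hp k} := by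
        rintro k ⟨hk, hk'⟩
        refine ⟨hk, ?_⟩
        have h3 : (N : ℝ) < (dens d p hp k).toReal := hk'
        have h4 : ENNReal.ofReal (N : ℝ) < dens d p hp k := by
          rcases eq_or_ne (dens d p hp k) ⊤ with h5 | h5
          · rw [h5]; exact ENNReal.ofReal_lt_top
          · exact (ENNReal.ofReal_lt_iff_lt_toReal (Nat.cast_nonneg N) h5).2 h3
        rw [ENNReal.ofReal_natCast] at h4
        exact h4
      have h3 := lint_f d p hp (S := cube d ∩ {k | (N : ℝ) < f d p hp k}) inter_subset_left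
      have h4 : ENNReal.ofReal (∫ k in cube d ∩ {k | (N : ℝ) < f d p hp k}, f d p hp k) ≤
          ENNReal.ofReal ε := by
        rw [← h3]
        exact (lintegral_mono_set h2).trans
          ((Pool.Agent.J4.H90.Perc.le_UU (N : ENNReal) p hp hlt).trans hN')
      exact (ENNReal.ofReal_le_ofReal_iff hε.le).1 h4
    tfae_have 2 → 5 := by
      intro h ε hε
      obtain ⟨T, hT⟩ := h (ε / 2) (by linarith)
      set S : ℝ := max T 1 with hS
      have hS0 : 0 < S := lt_max_of_lt_right one_pos
      set r : ℝ := min 1 (ε / (2 * S * 2 ^ d)) with hr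
      have hr0 : 0 < r := by positivity
      have hr1 : r ≤ 1 := min_le_left _ _
      refine ⟨r, hr0, hr1, fun p hp hlt => ?_⟩
      rw [← small_eq hr1]
      have hf := f_int d p hp
      have hf0 : ∀ k, 0 ≤ f d p hp k := fun k => ENNReal.toReal_nonneg
      have hfm : Measurable (f d p hp) := (Pool.Agent.J4.H67.PC.dens_meas p hp).ennreal_toReal
      set E : Set (Fin d → ℝ) := {k | T < f d p hp k} with hE
      have hEm : MeasurableSet E := measurableSet_lt measurable_const hfm
      have hsm : volume (cube d ∩ Pool.Agent.J4.H90.Perc.sm d r) ≤ ENNReal.ofReal ((2 * r) ^ d) := by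
        rw [← Pool.Agent.J4.H90.Perc.sm_vol r hr0.le]
        exact measure_mono inter_subset_right
      have hfin : volume (cube d ∩ Pool.Agent.J4.H90.Perc.sm d r) < ⊤ :=
        hsm.trans_lt ENNReal.ofReal_lt_top
      have i1 : IntegrableOn (fun _ : Fin d → ℝ => S) (cube d ∩ Pool.Agent.J4.H90.Perc.sm d r) :=
        integrableOn_const hfin.ne
      have i2 : IntegrableOn (E.indicator (f d p hp)) (cube d) := hf.indicator hEm
      have i2' := i2.mono_set (inter_subset_left (t := Pool.Agent.J4.H90.Perc.sm d r))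
      have h1 : ∫ k in cube d ∩ Pool.Agent.J4.H90.Perc.sm d r, f d p hp k ≤
          ∫ k in cube d ∩ Pool.Agent.J4.H90.Perc.sm d r, (S + E.indicator (f d p hp) k) := by
        refine integral_mono (hf.mono_set inter_subset_left) (i1.add i2') fun k => ?_
        show f d p hp k ≤ S + E.indicator (f d p hp) k
        by_cases hk : k ∈ E
        · rw [Set.indicator_of_mem hk]; linarith
        · rw [Set.indicator_of_notMem hk]
          have h2 : f d p hp k ≤ T := not_lt.1 hk
          have h3 : T ≤ S := le_max_left _ _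
          linarith
      refine h1.trans ?_
      rw [integral_add i1 i2', setIntegral_const, smul_eq_mul]
      have h4 : ∫ k in cube d ∩ Pool.Agent.J4.H90.Perc.sm d r, E.indicator (f d p hp) k ≤
          ∫ k in cube d, E.indicator (f d p hp) k :=
        setIntegral_mono_set i2 (Eventually.of_forall fun k =>
          Set.indicator_nonneg (fun k _ => hf0 k) k) (Eventually.of_forall inter_subset_left)
      have h5 : ∫ k in cube d, E.indicator (f d p hp) k ≤ ε / 2 := by
        rw [setIntegral_indicator hEm]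
        exact hT p hp hlt
      have h6 : volume.real (cube d ∩ Pool.Agent.J4.H90.Perc.sm d r) ≤ (2 * r) ^ d :=
        ENNReal.toReal_le_of_le_ofReal (by positivity) hsm
      have h7 : (2 * r) ^ d * S ≤ ε / 2 := by
        rw [mul_pow]
        have h8 : r ^ d ≤ r := pow_le_of_le_one hr0.le hr1 (by omega)
        have h9 : r ≤ ε / (2 * S * 2 ^ d) := min_le_right _ _
        calc (2 : ℝ) ^ d * r ^ d * S ≤ 2 ^ d * (ε / (2 * S * 2 ^ d)) * S := by
              gcongr
              exact h8.trans h9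
          _ = ε / 2 := by field_simp
      have h10 := mul_le_mul_of_nonneg_right h6 hS0.le
      linarith
    tfae_have 5 → 1 := by
      intro h
      by_contra hne
      have hpos : 0 < theta d (pcrit d) pcrit_le ^ 2 := by positivity
      set t := theta d (pcrit d) pcrit_le ^ 2 with ht
      have hpi : (0 : ℝ) < (2 * Real.pi) ^ d := by positivity
      obtain ⟨r, hr, hr1, h1⟩ := h (t / 4 * (2 * Real.pi) ^ d) (by positivity)
      obtain ⟨p0, h2, h3⟩ := Pool.Agent.J4.H90.Perc.cond_lower hd r hr (t / 2) (by positivity)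
      obtain ⟨p, h4, h5⟩ := exists_between h2
      have hp : p ≤ 1 := h5.le.trans pcrit_le
      have h6 := h3 p hp h4 h5
      rw [nd_eq, small_eq hr1] at h6
      have h7 := div_le_div_of_nonneg_right (h1 p hp h5) hpi.le
      rw [mul_div_cancel_right₀ _ hpi.ne'] at h7
      rw [← ht] at h6
      linarith
    tfae_have 1 → 3 := by
      intro h q hq hlt hlim
      exact Pool.Agent.J4.H67.PC.conv_mean (pcrit d) pcrit_le
        (Pool.Agent.J4.H90.Perc.fin_of_zero _ _ h) q hq hlt hlim
    tfae_have 3 → 4 := fun h => ⟨f d (pcrit d) pcrit_le, f_int d _ _, h⟩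
    tfae_have 4 → 1 := by
      rintro ⟨g, hg, h⟩
      exact Pool.Agent.J4.H90.Perc.theta_zero_of_conv hd g hg h
    tfae_have 1 → 6 := by
      intro h
      rw [Metric.tendsto_nhds]
      intro ε hε
      obtain ⟨n, hn⟩ := Pool.Agent.J4.H90.Perc.tau_limsup hd (pcrit d) pcrit_le (ε / 2) (by linarith)
      rw [h] at hn
      rw [Filter.eventually_cofinite]
      refine (Pool.Agent.Y990.CB.Bo_finite (0 : Fin d → ℤ) n).subset fun x hx => ?_
      by_contra hc
      apply hx
      rw [Real.dist_eq, sub_zero, abs_of_nonneg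
        (Pool.Agent.Results.MP_54f242_pr.InfraredMean.tau_nonneg _ _ _)]
      have h1 : n < Pool.Agent.Y990.CB.nm x := by
        by_contra hcc
        apply hc
        intro i
        have h2 := Pool.Agent.Y990.CB.abs_le_nm x i
        have h3 : x i - (0 : Fin d → ℤ) i = x i := by simp
        rw [h3]
        omega
      have h2 := hn x h1
      linarith
    tfae_have 6 → 1 := by
      intro h
      have hne : (cofinite : Filter (Fin d → ℤ)).NeBot := by
        have : Nonempty (Fin d) := ⟨⟨0, hd⟩⟩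
        infer_instance
      have h1 : theta d (pcrit d) pcrit_le ^ 2 ≤ 0 := ge_of_tendsto' h fun x =>
        Pool.Agent.J4.H90.Perc.theta_sq_le _ _ Pool.Agent.J4.H90.Perc.pcrit_pos x
      exact pow_eq_zero_iff (two_ne_zero) |>.1 (le_antisymm h1 (sq_nonneg _))
    tfae_finish

end Pool.Agent.Results.MP_54f242_pr.WeakInfraredBound
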